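import Mathlib
import Pool.Agent.Helper2.LGroupVar
import Pool.Agent.Helper2.LGroupEx

/-!
There are finitely based varieties of lattice-ordered groups whose product is not finitely based.
-/

universe u

namespace Pool.Agent.Results.MP_7f0386_al.ProductNotFinitelyBased

open Pool.Agent.Helper2.LG Pool.Agent.Helper2.LG.GG LTerm

/-- The conjugate `s t s⁻¹`. -/
def tconj (s t : LTerm) : LTerm := mul (mul s t) (inv s)
/-- `(x b x⁻¹)² b⁻³` -/
def tc1 (x b : LTerm) : LTerm :=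
  mul (mul (tconj x b) (tconj x b)) (mul (mul (inv b) (inv b)) (inv b))
/-- `b³ (x b x⁻¹)⁻¹` -/
def tc2 (x b : LTerm) : LTerm := mul (mul (mul b b) b) (inv (tconj x b))
/-- `b³ (y b y⁻¹)⁻²` -/
def tc3 (y b : LTerm) : LTerm :=
  mul (mul (mul b b) b) (mul (inv (tconj y b)) (inv (tconj y b)))
/-- `(y b y⁻¹)³ b⁻²` -/
def tc4 (y b : LTerm) : LTerm :=
  mul (mul (mul (tconj y b) (tconj y b)) (tconj y b)) (mul (inv b) (inv b))
/-- The commutator `x y x⁻¹ y⁻¹`. -/
def tz (x y : LTerm) : LTerm := mul (mul (mul x y) (inv x)) (inv y)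
/-- `(x z x⁻¹) z⁻²` -/
def tz1 (x y : LTerm) : LTerm := mul (tconj x (tz x y)) (mul (inv (tz x y)) (inv (tz x y)))
/-- `(y z₁ y⁻¹) z₁⁻²` -/
def tw (x y : LTerm) : LTerm := mul (tconj y (tz1 x y)) (mul (inv (tz1 x y)) (inv (tz1 x y)))
/-- The term `w ∧ c₁ ∧ ⋯`. -/
def tv (x y b d : LTerm) : LTerm :=
  inf (tw x y) (inf (tc1 x b) (inf (tc2 x b) (inf (tc3 y b) (inf (tc4 y b)
    (inf (tc1 y d) (inf (tc2 y d) (inf (tc3 x d) (tc4 x d))))))))

/-- The law of weakly abelian `ℓ`-groups: `x⁻¹ (y ∨ e) x ≤ (y ∨ e)²`. -/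
def law1 : Law :=
  (sup (mul (mul (inv (var 0)) (sup (var 1) one)) (var 0))
    (mul (sup (var 1) one) (sup (var 1) one)), mul (sup (var 1) one) (sup (var 1) one))

/-- The law of the second variety: `v ≤ e`. -/
def law2 : Law := (sup (tv (var 0) (var 1) (var 2) (var 3)) one, one)

theorem eval_law1 {G : Type u} [Group G] [Lattice G] (ρ : ℕ → G) :
    law1.1.eval ρ = law1.2.eval ρ ↔
      (ρ 0)⁻¹ * (ρ 1 ⊔ 1) * ρ 0 ≤ (ρ 1 ⊔ 1) * (ρ 1 ⊔ 1) :=
  sup_eq_right

theorem eval_law2 {G : Type u} [Group G] [Lattice G] (ρ : ℕ → G) :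
    law2.1.eval ρ = vv (ρ 0) (ρ 1) (ρ 2) (ρ 3) ⊔ 1 := rfl

theorem eval_law2' {G : Type u} [Group G] [Lattice G] (ρ : ℕ → G) :
    law2.2.eval ρ = 1 := rfl

theorem not_inProduct {a : ℝ} (ha : 0 < a) : ¬ InProduct (GG.{u} a) {law1} {law2} := by
  rintro ⟨N, hN, h1, h2⟩
  have h2' := (satisfies_quotient_iff hN law2).mp (h2 law2 rfl)
  have h1' := (satisfies_ideal_iff hN law1).mp (h1 law1 rfl)
  let ρ : ℕ → GG.{u} a := fun n =>
    match n with
    | 0 => xx a
    | 1 => yy a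
    | 2 => bb a
    | 3 => ee a
    | _ => 1
  have h3 := h2' ρ
  rw [eval_law2, eval_law2', mul_one] at h3
  have h3 : vv (xx a) (yy a) (bb a) (ee a) ⊔ 1 ∈ N := by
    have := N.inv_mem h3
    rwa [inv_inv] at this
  have ht : tt a 1 ∈ N := by
    refine hN.convex 1 N.one_mem _ h3 _ ?_ (tt_le_vv.trans le_sup_left)
    exact (one_lt_dd.trans dd_lt_tt).le
  have hd : dd a ∈ N := hN.convex 1 N.one_mem _ ht _ one_lt_dd.le dd_lt_tt.le
  obtain ⟨n, hn⟩ := not_weakly_abelian (a := a) ha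
  apply hn
  have htn : (tt a n : GG.{u} a) ∈ N := by
    rw [← tt_pow]
    exact N.pow_mem ht n
  let σ : ℕ → GG.{u} a := fun k => if k = 0 then (tt a n)⁻¹ else dd a
  have hσ : ∀ k, σ k ∈ N := by
    intro k
    by_cases hk : k = 0
    · simp only [σ, hk, if_true]
      exact N.inv_mem htn
    · simp only [σ, hk, if_false]
      exact hd
  have h4 := (eval_law1 σ).mp (h1' σ hσ)
  have e1 : (dd a ⊔ 1 : GG.{u} a) = dd a := sup_eq_left.mpr one_lt_dd.le
  simp only [σ, if_true, one_ne_zero, if_false, inv_inv, e1] at h4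
  exact h4

/-- The sequences of small elements. -/
def smallSeq (A : ℕ → ℝ) : Subgroup (∀ k, GG.{u} (A k)) where
  carrier := {f | ∃ m : ℤ, ∀ᶠ k in Filter.atTop, Small m (f k)}
  one_mem' := ⟨0, Filter.Eventually.of_forall (fun k => by simp [GG.Small])⟩
  mul_mem' := by
    rintro f g ⟨m, hm⟩ ⟨n, hn⟩
    refine ⟨m + n, ?_⟩
    filter_upwards [hm, hn] with k h1 h2
    exact h1.mul h2
  inv_mem' := by
    rintro f ⟨m, hm⟩
    refine ⟨m, ?_⟩
    filter_upwards [hm] with k h1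
    exact h1.inv

theorem smallSeq_isLIdeal (A : ℕ → ℝ) : IsLIdeal (smallSeq.{u} A) := by
  have hconv : ∀ f ∈ smallSeq.{u} A, ∀ h ∈ smallSeq.{u} A, ∀ g, f ≤ g → g ≤ h →
      g ∈ smallSeq.{u} A := by
    rintro f ⟨m, hm⟩ h ⟨n, hn⟩ g hfg hgh
    refine ⟨max m n, ?_⟩
    filter_upwards [hm, hn] with k h1 h2
    exact Small.convex h1 h2 (hfg k) (hgh k)
  refine ⟨⟨?_⟩, ?_, ?_, hconv⟩
  · rintro f ⟨m, hm⟩ g
    refine ⟨m, ?_⟩
    filter_upwards [hm] with k h1
    exact h1.conj (g k)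
  · rintro f ⟨m, hm⟩ g ⟨n, hn⟩
    refine ⟨max m n, ?_⟩
    filter_upwards [hm, hn] with k h1 h2
    rw [Pi.sup_apply]
    rcases le_total (f k) (g k) with h | h
    · rw [sup_eq_right.mpr h]; exact h2.mono (le_max_right _ _)
    · rw [sup_eq_left.mpr h]; exact h1.mono (le_max_left _ _)
  · rintro f ⟨m, hm⟩ g ⟨n, hn⟩
    refine ⟨max m n, ?_⟩
    filter_upwards [hm, hn] with k h1 h2
    rw [Pi.inf_apply]
    rcases le_total (f k) (g k) with h | h
    · rw [inf_eq_left.mpr h]; exact h1.mono (le_max_left _ _)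
    · rw [inf_eq_right.mpr h]; exact h2.mono (le_max_right _ _)

/-- There are finitely based varieties `V₁`, `V₂` of lattice-ordered groups (given by finite sets
of laws `S₁`, `S₂`) whose product `V₁V₂` is not defined by any finite set of laws. -/
theorem result :
    ∃ S₁ S₂ : Set Law, S₁.Finite ∧ S₂.Finite ∧
      ¬ ∃ S : Set Law, S.Finite ∧
        ∀ (G : Type u) [Group G] [Lattice G] [MulLeftMono G] [MulRightMono G],
          InProduct G S₁ S₂ ↔ Models G S := by
  refine ⟨{law1}, {law2}, Set.finite_singleton _, Set.finite_singleton _, ?_⟩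
  rintro ⟨S, hS, hiff⟩
  let A : ℕ → ℝ := fun k => 1 / ((k : ℝ) + 1)
  have hA : ∀ k, 0 < A k := fun k => by positivity
  have key : ∃ k, InProduct (GG.{u} (A k)) {law1} {law2} := by
    refine exists_inProduct (G := fun k => GG.{u} (A k)) {law1} {law2} S hS
      (fun X _ _ _ _ => hiff X) (smallSeq A) (smallSeq_isLIdeal A) ?_ ?_ ?_
    · intro f hf
      refine ⟨0, ?_⟩
      filter_upwards [hf] with k hk
      rw [hk]
      simp [GG.Small]
    · intro l hl ρ hρ
      rw [Set.mem_singleton_iff] at hl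
      subst hl
      obtain ⟨m, hm⟩ := hρ 0
      obtain ⟨n, hn⟩ := hρ 1
      have hlim : Filter.Tendsto (fun k : ℕ => Real.exp (A k * ((max m n : ℤ) : ℝ)))
          Filter.atTop (nhds (Real.exp (0 * ((max m n : ℤ) : ℝ)))) := by
        apply (Real.continuous_exp.tendsto _).comp
        apply Filter.Tendsto.mul_const
        exact tendsto_one_div_add_atTop_nhds_zero_nat
      have h2 : ∀ᶠ k in Filter.atTop, Real.exp (A k * ((max m n : ℤ) : ℝ)) < 2 := by
        apply hlim.eventually_lt_const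
        simp
      filter_upwards [hm, hn, h2] with k h3 h4 h5
      rw [Pi.mul_apply, Pi.inv_apply, inv_mul_eq_one, eval_pi, eval_pi, eval_law1]
      exact weakly_abelian h5 (hA k).le (h3.mono (le_max_left _ _)) (h4.mono (le_max_right _ _))
    · intro l hl ρ
      rw [Set.mem_singleton_iff] at hl
      subst hl
      apply (smallSeq A).mul_mem _ (smallSeq A).one_mem
      apply (smallSeq A).inv_mem
      refine ⟨1, Filter.Eventually.of_forall (fun k => ?_)⟩
      rw [eval_pi, eval_law2]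
      exact small_vv _ _ _ _
  obtain ⟨k, hk⟩ := key
  exact not_inProduct (hA k) hk

end Pool.Agent.Results.MP_7f0386_al.ProductNotFinitelyBased
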